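import Pool.Agent.AT6.Stmts1
import Pool.Agent.Helper3_AT3.DUG
import Pool.Agent.Helper62_AT3.LCJ
import Pool.Agent.Helper97_K9.ORB
import Pool.Agent.Helper69_K9.Fmg
import Pool.Agent.Helper34_K9.INX

/-!
# Squad AT6, row LCX: every local block is conjugate to a local block of an element of `V`
(adapted from `Helper81_AT2/STG.lean` and `Helper38_AT3/GCH.lean`)
-/

open scoped BigOperators

set_option autoImplicit false

noncomputable section

namespace Pool.Agent.PP.T6.H46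

open Pool.Agent.Helper51_AWC Pool.Agent.Helper79_WRA Pool.Agent.PP Pool.Agent.PP.KF
open Pool.Agent.PP.K9 Pool.Agent.PP.K9.H97 Pool.Agent.PP.T3 Pool.Agent.PP.T2

attribute [local instance] Ideal.Quotient.field

theorem br_cj' {F G : Type} [Field F] [Group G] [Finite G] (g : G) (V : Subgroup G) (b : G → F) :
    br (conjS g V) (H75.cj g b) = H75.cj g (br V b) := by
  classical
  funext x
  change _ = br V b (g⁻¹ * x * g)
  unfold br
  by_cases h : x ∈ Subgroup.centralizer (conjS g V : Set G)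
  · rw [if_pos h, if_pos ((T3.H62.mem_cent_conjS x).1 h)]
    rfl
  · rw [if_neg h, if_neg (fun h' => h ((T3.H62.mem_cent_conjS x).2 h'))]

/-- blocks of the centraliser of a defect group under the same block are conjugate under the
normaliser -/
theorem exists_conj {ℓ : ℕ} [hℓ : Fact ℓ.Prime] {M : Ideal (integralClosure ℤ ℂ)} [M.IsMaximal]
    (hM : (ℓ : integralClosure ℤ ℂ) ∈ M) {G : Type} [Group G] [Finite G] {e : G → FF M}
    {V : Subgroup G} {γ γ₁ : G → FF M} (h : Ld ℓ e V γ) (h₁ : Ld ℓ e V γ₁) :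
    ∃ n ∈ Subgroup.normalizer (V : Set G), γ₁ = H75.cj n γ := by
  have hF : GoodF ℓ (FF M) := H50.fld ℓ hℓ.out M hM
  obtain ⟨-, ⟨hb, -⟩, -⟩ := K9.H69.fmg ℓ M hM G e h.blk V h.tp
  have hXN : Subgroup.centralizer (V : Set G) ≤ Subgroup.normalizer (V : Set G) :=
    Subgroup.centralizer_le_normalizer _
  have hN : Subgroup.normalizer (V : Set G) ≤
      Subgroup.normalizer ((Subgroup.centralizer (V : Set G) : Subgroup G) : Set G) := by
    intro n hn
    have key : ∀ m : G, m ∈ Subgroup.normalizer (V : Set G) → ∀ c,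
        c ∈ Subgroup.centralizer (V : Set G) → m * c * m⁻¹ ∈ Subgroup.centralizer (V : Set G) := by
      intro m hm c hc
      rw [Subgroup.mem_centralizer_iff]
      intro v hv
      have h1 : m⁻¹ * v * m ∈ V := by
        have := (Subgroup.mem_normalizer_iff.1 (Subgroup.inv_mem _ hm) v).1 hv
        rwa [inv_inv] at this
      have h2 := Subgroup.mem_centralizer_iff.1 hc _ h1
      have h3 : m * (m⁻¹ * v * m * c) * m⁻¹ = m * (c * (m⁻¹ * v * m)) * m⁻¹ := by rw [h2]
      have h4 : m * (m⁻¹ * v * m * c) * m⁻¹ = v * (m * c * m⁻¹) := by group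
      have h5 : m * (c * (m⁻¹ * v * m)) * m⁻¹ = m * c * m⁻¹ * v := by group
      rw [h4, h5] at h3
      exact h3
    rw [Subgroup.mem_normalizer_iff]
    intro c
    refine ⟨key n hn c, fun hc => ?_⟩
    have h1 := key n⁻¹ (Subgroup.inv_mem _ hn) _ hc
    have h2 : n⁻¹ * (n * c * n⁻¹) * n⁻¹⁻¹ = c := by group
    rwa [h2] at h1
  exact orb_main hXN hN (f := br V e)
    ⟨fun x hx => H66.br_of_not_mem fun h2 => hx (hXN h2), hb⟩ h.gam h₁.gam h.und h₁.und

/-- the unit condition in the centraliser through the Brauer map -/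
theorem und_iff {F G : Type} [Field F] [Group G] [Finite G] {e g : G → F} {Q : Subgroup G}
    (h : mulF (br Q e) g = g) :
    mulF (fun t : Subgroup.centralizer (Q : Set G) => e t)
      (fun t : Subgroup.centralizer (Q : Set G) => g t) =
        (fun t : Subgroup.centralizer (Q : Set G) => g t) := by
  have hbrs : ∀ x, x ∉ Subgroup.centralizer (Q : Set G) → br Q e x = 0 :=
    fun x hx => H66.br_of_not_mem hx
  have hbr : (fun t : Subgroup.centralizer (Q : Set G) => br Q e t) =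
      fun t : Subgroup.centralizer (Q : Set G) => e t := by
    funext t
    exact H66.br_of_mem t.2
  have h1 := H75.mulF_res (Subgroup.centralizer (Q : Set G)) g hbrs
  rw [hbr, h] at h1
  exact h1.symm

theorem cent_zp {G : Type} [Group G] (y : G) :
    Subgroup.centralizer ((Subgroup.zpowers y : Subgroup G) : Set G) = Cu y := by
  ext x
  rw [Subgroup.mem_centralizer_iff, Subgroup.mem_centralizer_singleton_iff]
  constructor
  · intro h
    exact (h y (Subgroup.mem_zpowers y)).symm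
  · intro h z hz
    obtain ⟨k, rfl⟩ := Subgroup.mem_zpowers_iff.1 hz
    exact ((show Commute x y from h).zpow_right k).eq.symm

/-- LCX -/
theorem lcx (dug : DugStmt) : LcxStmt := by
  intro ℓ hfact M _ hM G _ _ e V γ hL y hyl b hb heb
  have hF : GoodF ℓ (FF M) := H50.fld ℓ hfact.out M hM
  have hC : Subgroup.centralizer ((Subgroup.zpowers y : Subgroup G) : Set G) = Cu y := by
    ext x
    rw [Subgroup.mem_centralizer_iff, Subgroup.mem_centralizer_singleton_iff]
    constructor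
    · intro h
      exact (h y (Subgroup.mem_zpowers y)).symm
    · intro h z hz
      obtain ⟨k, rfl⟩ := Subgroup.mem_zpowers_iff.1 hz
      exact ((show Commute x y from h).zpow_right k).eq.symm
  have hQ : IsPGroup ℓ (Subgroup.zpowers y) := by
    obtain ⟨n, hn⟩ := hyl
    rintro ⟨z, hz⟩
    obtain ⟨k, rfl⟩ := Subgroup.mem_zpowers_iff.1 hz
    refine ⟨n, Subtype.ext ?_⟩
    show (y ^ k) ^ ℓ ^ n = 1
    rw [← zpow_natCast, ← zpow_mul, mul_comm, zpow_mul, zpow_natCast, hn, one_zpow]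
  obtain ⟨P, hQP, hPC, hP, hPV, hgP⟩ := dug ℓ M hM G e hL.blk V hL.tp hL.ab (Subgroup.zpowers y) hQ
    b (by rw [hC]; exact hb) (by rw [hC]; exact heb)
  have hyP : y ∈ P := hQP (Subgroup.mem_zpowers y)
  rw [hC] at hPC
  have hbQ : Bx (Subgroup.centralizer ((Subgroup.zpowers y : Subgroup G) : Set G)) b := by
    rw [hC]
    exact hb
  have hunQ : mulF (br (Subgroup.zpowers y) e) b = b :=
    T3.H3.under_iff hbQ (by rw [hC]; exact heb)
  -- `P` is good for `e`
  have hCC : Subgroup.centralizer (P : Set G) ≤ Cu y := by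
    rw [← hC]
    exact Subgroup.centralizer_le (show ((Subgroup.zpowers y : Subgroup G) : Set G) ⊆ P from hQP)
  have hinvP : H66.Inv P b := fun p hp t => C2.H3.ix_inv hb.ix (hPC hp) t
  have hIb : Ix (Subgroup.centralizer (P : Set G)) (br P b) :=
    C2.H3.ix_br hF hP (fun z hz x => C2.H3.ix_inv hb.ix (hCC hz) x) hinvP hb.mul
  have hIQ : Ix (Subgroup.centralizer ((Subgroup.zpowers y : Subgroup G) : Set G))
      (br (Subgroup.zpowers y) e) :=
    C2.H3.ix_br hF hQ (fun z _ x => hL.blk.1.1 x z) (H66.IsCl.inv hL.blk.1.1 _) hL.blk.1.2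
  have hinvQ : H66.Inv P (br (Subgroup.zpowers y) e) := fun p hp t =>
    C2.H3.ix_inv hIQ (by rw [hC]; exact hPC hp) t
  have hPe : mulF (br P e) (br P b) = br P b := by
    have h1 := congrArg (br P) hunQ
    rwa [H66.br_mulF hF hP hinvQ hinvP, C2.H3.br_br hQP] at h1
  have hbrb : br P b ≠ 0 := C2.H3.br_ne_of_gd hgP
  have hGe : Gd e P := by
    apply C2.H3.gd_of_br'
    intro h0
    apply hbrb
    rw [← hPe, h0, H75.mulF_zero_left]
  -- the conjugate
  obtain ⟨k, hk⟩ := (K9.H69.fmg ℓ M hM G e hL.blk V hL.tp).1 P hP hGe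
  have hPk : P = conjS k V := by
    refine Subgroup.eq_of_le_of_card_ge hk ?_
    rw [card_conjS, hPV]
  obtain ⟨hL1, hix1⟩ := T3.H62.lcj ℓ (FF M) hF G e V γ hL k
  rw [← hPk] at hL1 hix1
  -- the block of `C(P)`
  obtain ⟨γ₀, hγ₀, hgγ, -⟩ := K9.H24.exists_blk
    (L := fun a : Subgroup.centralizer (P : Set G) → FF M => a) rfl
    (fun a b => rfl) hIb.idem (by
      intro h
      apply hbrb
      exact H75.eq_of_res hIb.supp (fun _ _ => rfl) h)
  obtain ⟨γ₁, hγ₁⟩ : ∃ γ₁ : G → FF M,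
      γ₁ = H75.ext0 (Subgroup.centralizer (P : Set G)) γ₀ := ⟨_, rfl⟩
  have hγs : ∀ x, x ∉ Subgroup.centralizer (P : Set G) → γ₁ x = 0 := by
    rw [hγ₁]
    exact H75.ext0_supp _ γ₀
  have hγC : (fun t : Subgroup.centralizer (P : Set G) => γ₁ t) = γ₀ := by
    rw [hγ₁]
    exact funext (H75.ext0_apply _ γ₀)
  have hBγ : Bx (Subgroup.centralizer (P : Set G)) γ₁ := ⟨hγs, by rw [hγC]; exact hγ₀⟩
  have hbγ : mulF (br P b) γ₁ = γ₁ := by
    apply H75.eq_of_res (H75.mulF_supp _ hIb.supp hγs) hγs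
    rw [H75.mulF_res _ γ₁ hIb.supp, hγC, hgγ]
  have heγ : mulF (br P e) γ₁ = γ₁ := by
    rw [← hbγ, ← H20.mulF_assoc, hPe]
  have hL2 : Ld ℓ e P γ₁ := ⟨hL.blk, hL1.tp, hL1.ab, hBγ, heγ⟩
  have hLc : Lc e P γ₁ y b := ⟨hb, heb, hbγ⟩
  -- the conjugate of `γ`
  obtain ⟨n, hn, hγn⟩ := exists_conj hM hL1 hL2
  have hPn : conjS n P = P := mem_normalizer_iff_conjS.1 hn
  rw [H75.cj_cj] at hγn
  have hPu : conjS (n * k) V = P := by rw [← conjS_conjS, ← hPk, hPn]
  have hv : (n * k)⁻¹ * y * (n * k) ∈ V := by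
    rw [← T3.H62.mem_conjS, hPu]
    exact hyP
  have hyu : y = (n * k) * ((n * k)⁻¹ * y * (n * k)) * (n * k)⁻¹ := by group
  refine ⟨n * k, (n * k)⁻¹ * y * (n * k), hv, hyu, ?_⟩
  obtain ⟨u, hu⟩ : ∃ u : G, u = n * k := ⟨_, rfl⟩
  rw [← hu] at hγn hPu hv hyu ⊢
  have hVu : conjS u⁻¹ P = V := by rw [← hPu, conjS_conjS, inv_mul_cancel, conjS_one]
  have hCu : ∀ z, z ∈ Cu (u⁻¹ * y * u) ↔ u⁻¹⁻¹ * z * u⁻¹ ∈ Cu y := by
    intro z
    rw [inv_inv, Subgroup.mem_centralizer_singleton_iff, Subgroup.mem_centralizer_singleton_iff]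
    constructor
    · intro h
      calc u * z * u⁻¹ * y = u * (z * (u⁻¹ * y * u)) * u⁻¹ := by group
        _ = u * ((u⁻¹ * y * u) * z) * u⁻¹ := by rw [h]
        _ = y * (u * z * u⁻¹) := by group
    · intro h
      calc z * (u⁻¹ * y * u) = u⁻¹ * (u * z * u⁻¹ * y) * u := by group
        _ = u⁻¹ * (y * (u * z * u⁻¹)) * u := by rw [h]
        _ = (u⁻¹ * y * u) * z := by group
  refine ⟨T3.H62.bx_cj hCu hb, ?_, ?_⟩
  · have h1 : mulF (br (Subgroup.zpowers (u⁻¹ * y * u)) e) (H75.cj u⁻¹ b) = H75.cj u⁻¹ b := by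
      have h2 : conjS u⁻¹ (Subgroup.zpowers y) = Subgroup.zpowers (u⁻¹ * y * u) := by
        rw [conjS, MonoidHom.map_zpowers]
        congr 1
        simp
      rw [← h2, T3.H62.br_cj u⁻¹ _ hL.blk.1.1, ← H75.cj_mulF, hunQ]
    have h3 := und_iff h1
    rw [cent_zp] at h3
    exact h3
  · have h1 : br V (H75.cj u⁻¹ b) = H75.cj u⁻¹ (br P b) := by
      rw [← hVu]
      exact br_cj' u⁻¹ P b
    have h2 : γ = H75.cj u⁻¹ γ₁ := by rw [hγn, H75.cj_inv_cj]
    rw [h1, h2, ← H75.cj_mulF, hbγ]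

end Pool.Agent.PP.T6.H46
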